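import Pool.Agent.Helper57.REC.Stmts3

/-!
REC, FST: the first inequality.
-/

set_option autoImplicit false

open scoped Classical
open NumberField

namespace Pool.Agent.Helper84.REC

open _root_.REC
open Pool.Agent.Helper13.ZL (Pl q HasMean)
open MU (Gal Zb Over CongPow)

theorem st_FST (hTRL : ST_TRL) (hSEX : ST_SEX) (hNIX : ST_NIX) (hTHE : ST_THE) (hXSG : ST_XSG) :
    ST_FST := by
  intro F _ _ Y hYn hYo hYc B hB
  obtain ⟨L, _, _, _, _, σ, hσ, hdeg, hv⟩ := hTRL F Y hYn hYo hYc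
  have hunr : ∀ v : Pl F, v ∉ B → UnrL L v := fun v hvB => (hv v (hB v hvB)).1
  obtain ⟨N₀, hN₀, hNI⟩ := hNIX F L σ hσ B hunr
  refine ⟨N₀, hN₀, fun N hN => ?_⟩
  obtain ⟨T, TL, h1, h2, h3, h4⟩ := hSEX F L B
  obtain ⟨R, hR1, hR2, hR3⟩ := hNI T TL h1 h2 h3
  -- the ray characters which are trivial on norms
  have hsub : XL L B N ⊆ X Y B N := by
    intro f hf
    obtain ⟨hf1, hf2⟩ := hf
    refine ⟨hf1, ?_⟩
    intro v hvB 𝔓 h𝔓 j τ hτ hτY
    obtain ⟨c, hc⟩ := (hv v (hB v hvB)).2 𝔓 h𝔓 j τ hτ hτY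
    rw [hc, pow_mul, hf2 v hvB, one_pow]
  have hfin : (X Y B N).Finite := by
    obtain ⟨H, hH1, hH2⟩ := hXSG F Y B N
    rw [← hH1]
    exact Set.toFinite _
  have h5 := hTHE F L B T TL hunr h1 h2 h3 h4 N₀ hN₀ R hR1 hR2 N hN (hfin.subset hsub)
  calc Y.index = Module.finrank F L := hdeg.symm
    _ ≤ R.index := hR3
    _ ≤ (XL L B N).ncard := h5
    _ ≤ (X Y B N).ncard := Set.ncard_le_ncard hsub hfin

end Pool.Agent.Helper84.REC
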