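import Pool.Agent.Helper57.REC.Stmts3

/-!
REC, SEX: a finite set of places which generates the class groups of `F` and of `L`.
-/

set_option autoImplicit false

open scoped Classical nonZeroDivisors
open NumberField

namespace Pool.Agent.Helper84.REC

open _root_.REC
open Pool.Agent.Helper13.ZL (Pl q HasMean)
open IsDedekindDomain

theorem mk0_aux (R : Type) [CommRing R] [IsDedekindDomain R] (I I0 J : Ideal R)
    (hI : I ≠ 0) (hI0 : I0 ≠ 0) (hJ : J ≠ 0)
    (h : ClassGroup.mk0 ⟨I, mem_nonZeroDivisors_iff_ne_zero.mpr hI⟩ =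
      ClassGroup.mk0 ⟨I0, mem_nonZeroDivisors_iff_ne_zero.mpr hI0⟩)
    (h0 : ∃ x : R, x ≠ 0 ∧ I0 * J = Ideal.span {x}) : ∃ x : R, x ≠ 0 ∧ I * J = Ideal.span {x} := by
  have h1 := (ClassGroup.mk0_eq_mk0_inv_iff (I := ⟨I0, mem_nonZeroDivisors_iff_ne_zero.mpr hI0⟩)
    (J := ⟨J, mem_nonZeroDivisors_iff_ne_zero.mpr hJ⟩)).mpr h0
  rw [← h] at h1
  exact (ClassGroup.mk0_eq_mk0_inv_iff (I := ⟨I, mem_nonZeroDivisors_iff_ne_zero.mpr hI⟩)
    (J := ⟨J, mem_nonZeroDivisors_iff_ne_zero.mpr hJ⟩)).mp h1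

section one

variable {K : Type} [Field K] [NumberField K]

/-- every class contains an integral ideal which is not contained in the places of `B` -/
theorem exists_cop_inv (B : Finset (Pl K)) (I : Ideal (𝓞 K)) (hI : I ≠ ⊥) :
    ∃ J : Ideal (𝓞 K), J ≠ ⊥ ∧ (∀ v ∈ B, ¬ J ≤ v.asIdeal) ∧
      ∃ x : 𝓞 K, x ≠ 0 ∧ I * J = Ideal.span {x} := by
  set P : Ideal (𝓞 K) := Ideal.span {(2 : 𝓞 K)} * ∏ v ∈ B, v.asIdeal with hP
  have h2 : (2 : 𝓞 K) ≠ 0 := two_ne_zero
  have hP0 : P ≠ 0 := by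
    rw [hP]
    refine mul_ne_zero ?_ ?_
    · rw [Ne, Ideal.zero_eq_bot, Ideal.span_singleton_eq_bot]; exact h2
    · rw [Finset.prod_ne_zero_iff]
      intro v _
      exact v.ne_bot
  have hPt : P ≠ ⊤ := by
    intro h
    have h3 : Ideal.span {(2 : 𝓞 K)} = ⊤ := by
      rw [eq_top_iff, ← h, hP]
      exact Ideal.mul_le_left
    rw [Ideal.span_singleton_eq_top] at h3
    obtain ⟨u, hu⟩ := h3
    -- the norm of `2` is `2 ^ n`
    have h4 : IsUnit (Algebra.norm ℤ (2 : 𝓞 K)) := by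
      rw [← hu]; exact u.isUnit.map (Algebra.norm ℤ)
    have h5 : Algebra.norm ℤ (2 : 𝓞 K) = 2 ^ Module.finrank ℤ (𝓞 K) := by
      have := Algebra.norm_algebraMap_of_basis (Module.Free.chooseBasis ℤ (𝓞 K)) (2 : ℤ)
      rw [← Module.finrank_eq_card_basis (Module.Free.chooseBasis ℤ (𝓞 K))] at this
      simpa using this
    rw [h5, Int.isUnit_iff] at h4
    have h6 : 0 < Module.finrank ℤ (𝓞 K) := Module.finrank_pos
    have h7 : (2 : ℤ) ≤ 2 ^ Module.finrank ℤ (𝓞 K) := by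
      calc (2 : ℤ) = 2 ^ 1 := by norm_num
        _ ≤ _ := pow_le_pow_right₀ (by norm_num) h6
    omega
  have hI0 : I ≠ 0 := hI
  obtain ⟨a, ha⟩ := IsDedekindDomain.exists_sup_span_eq (I := I * P) (J := I) Ideal.mul_le_left
    (mul_ne_zero hI0 hP0)
  have hle : Ideal.span {a} ≤ I := by
    conv_rhs => rw [← ha]
    exact le_sup_right
  obtain ⟨J, hJ⟩ := Ideal.dvd_iff_le.mpr hle
  have hsup : P ⊔ J = ⊤ := by
    have h1 : I * (P ⊔ J) = I * 1 := by
      rw [mul_one, Ideal.mul_sup, ← hJ]; exact ha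
    have := mul_left_cancel₀ hI0 h1
    rw [this, Ideal.one_eq_top]
  have hJ0 : J ≠ ⊥ := by
    intro h
    rw [h, sup_bot_eq] at hsup
    exact hPt hsup
  refine ⟨J, hJ0, ?_, a, ?_, hJ.symm⟩
  · intro v hv hle'
    have h1 : P ≤ v.asIdeal := by
      rw [hP]
      refine le_trans Ideal.mul_le_right ?_
      exact Ideal.dvd_iff_le.mp (Finset.dvd_prod_of_mem (fun v : Pl K => v.asIdeal) hv)
    have h2 : P ⊔ J ≤ v.asIdeal := sup_le h1 hle'
    rw [hsup, top_le_iff] at h2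
    exact v.isPrime.ne_top h2
  · intro h
    rw [h] at hJ
    have : Ideal.span {(0 : 𝓞 K)} = ⊥ := by simp
    rw [this] at hJ
    have h0 : I * J = 0 := hJ.symm
    rcases mul_eq_zero.mp h0 with h | h
    · exact hI0 h
    · exact hJ0 h

/-- divisibility by powers of a place which does not divide `J` -/
theorem mul_le_pow_iff (v : Pl K) (I J : Ideal (𝓞 K)) (hJ : ¬ J ≤ v.asIdeal) (k : ℕ) :
    I * J ≤ v.asIdeal ^ k ↔ I ≤ v.asIdeal ^ k := by
  constructor
  · intro h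
    have h1 : v.asIdeal ^ k ∣ I * J := Ideal.dvd_iff_le.mpr h
    have h2 : ¬ v.asIdeal ∣ J := fun h => hJ (Ideal.dvd_iff_le.mp h)
    have h3 : IsCoprime (v.asIdeal ^ k) J := by
      apply IsCoprime.pow_left
      rw [Ideal.isCoprime_iff_sup_eq]
      have hm := v.isMaximal
      by_contra hne
      have h4 : v.asIdeal ⊔ J = v.asIdeal := by
        have := hm.eq_of_le hne le_sup_left
        exact this.symm
      exact hJ (by rw [← h4]; exact le_sup_right)
    exact Ideal.dvd_iff_le.mp (h3.dvd_of_dvd_mul_right h1)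
  · intro h
    exact le_trans Ideal.mul_le_left h

/-- a generating set for the class group, prime to `B` -/
theorem exists_clGen (B : Finset (Pl K)) : ∃ T : Finset (Pl K), Disjoint T B ∧ ClGen K T := by
  have key : ∀ c : ClassGroup (𝓞 K), ∃ J : Ideal (𝓞 K), J ≠ ⊥ ∧ (∀ v ∈ B, ¬ J ≤ v.asIdeal) ∧
      ∀ (I : Ideal (𝓞 K)) (hI : I ≠ 0),
        ClassGroup.mk0 ⟨I, mem_nonZeroDivisors_iff_ne_zero.mpr hI⟩ = c → ∃ x : 𝓞 K, x ≠ 0 ∧
        I * J = Ideal.span {x} := by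
    intro c
    obtain ⟨⟨I0, hm⟩, hI0⟩ := ClassGroup.mk0_surjective c
    have h0 : I0 ≠ 0 := mem_nonZeroDivisors_iff_ne_zero.mp hm
    obtain ⟨J, h1, h2, h3⟩ := exists_cop_inv B I0 h0
    refine ⟨J, h1, h2, ?_⟩
    intro I hI hIc
    exact mk0_aux (𝓞 K) I I0 J hI h0 h1 (hIc.trans hI0.symm) h3
  choose J hJ0 hJB hJ using key
  have hfin : (⋃ c : ClassGroup (𝓞 K), {v : Pl K | v.asIdeal ∣ J c}).Finite :=
    Set.finite_iUnion fun c => Ideal.finite_factors (hJ0 c)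
  refine ⟨hfin.toFinset, ?_, ?_⟩
  · rw [Finset.disjoint_left]
    intro v hv hvB
    rw [Set.Finite.mem_toFinset, Set.mem_iUnion] at hv
    obtain ⟨c, hc⟩ := hv
    exact hJB c v hvB (Ideal.dvd_iff_le.mp hc)
  · intro I hI
    have hIm : I ∈ (Ideal (𝓞 K))⁰ := mem_nonZeroDivisors_iff_ne_zero.mpr hI
    obtain ⟨x, hx0, hx⟩ := hJ (ClassGroup.mk0 ⟨I, hIm⟩) I hI rfl
    refine ⟨x, hx0, fun v hv k => ?_⟩
    have h1 : ¬ J (ClassGroup.mk0 ⟨I, hIm⟩) ≤ v.asIdeal := by
      intro h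
      apply hv
      rw [Set.Finite.mem_toFinset, Set.mem_iUnion]
      exact ⟨_, Ideal.dvd_iff_le.mpr h⟩
    rw [← mul_le_pow_iff v I _ h1 k]
    have h2 : I * J (ClassGroup.mk0 ⟨I, hIm⟩) = Ideal.span {x} := hx
    rw [h2, Ideal.span_singleton_le_iff_mem]

theorem ClGen.mono {T T' : Finset (Pl K)} (h : T ⊆ T') (hT : ClGen K T) : ClGen K T' := by
  intro I hI
  obtain ⟨x, h1, h2⟩ := hT I hI
  exact ⟨x, h1, fun v hv k => h2 v (fun h' => hv (h h')) k⟩

end one

section two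

variable {F L : Type} [Field F] [NumberField F] [Field L] [NumberField L] [Algebra F L]

/-- the place below `P` -/
theorem exists_under (P : Pl L) : ∃ v : Pl F, OvL v P := by
  have := P.isPrime
  have hne : Ideal.comap (algebraMap (𝓞 F) (𝓞 L)) P.asIdeal ≠ ⊥ :=
    Ideal.IsIntegral.comap_ne_bot (𝓞 F) P.ne_bot
  exact ⟨⟨Ideal.comap (algebraMap (𝓞 F) (𝓞 L)) P.asIdeal, Ideal.comap_isPrime _ _, hne⟩,
    fun x => Iff.rfl⟩

/-- finitely many places lie over `v` -/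
theorem finite_over (v : Pl F) : {P : Pl L | OvL v P}.Finite := by
  obtain ⟨x, hx, hx0⟩ := Submodule.exists_mem_ne_zero_of_ne_bot v.ne_bot
  have h0 : Ideal.span {algebraMap (𝓞 F) (𝓞 L) x} ≠ 0 := by
    rw [Ne, Ideal.zero_eq_bot, Ideal.span_singleton_eq_bot]
    intro h
    apply hx0
    have := (FaithfulSMul.algebraMap_injective (𝓞 F) (𝓞 L))
    exact this (by rw [h, map_zero])
  refine (Ideal.finite_factors h0).subset ?_
  intro P hP
  rw [Set.mem_ofPred] at hP ⊢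
  rw [Ideal.dvd_iff_le, Ideal.span_singleton_le_iff_mem]
  exact (hP x).mpr hx

end two

theorem st_SEX : ST_SEX := by
  intro F L _ _ _ _ _ _ B
  -- the places of `L` over `B`
  have hBL : {P : Pl L | ∃ v ∈ B, OvL v P}.Finite := by
    have : {P : Pl L | ∃ v ∈ B, OvL v P} = ⋃ v ∈ B, {P : Pl L | OvL v P} := by
      ext P; simp
    rw [this]
    exact Set.Finite.biUnion B.finite_toSet fun v _ => finite_over v
  obtain ⟨TF, hTF1, hTF2⟩ := exists_clGen B
  obtain ⟨TL0, hTL1, hTL2⟩ := exists_clGen hBL.toFinset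
  choose un hun using fun P : Pl L => exists_under (F := F) P
  set T : Finset (Pl F) := TF ∪ TL0.image un with hT
  have hTLf : {P : Pl L | ∃ v ∈ T, OvL v P}.Finite := by
    have : {P : Pl L | ∃ v ∈ T, OvL v P} = ⋃ v ∈ T, {P : Pl L | OvL v P} := by
      ext P; simp
    rw [this]
    exact Set.Finite.biUnion T.finite_toSet fun v _ => finite_over v
  refine ⟨T, hTLf.toFinset, ?_, ?_, ?_, ?_⟩
  · rw [Finset.disjoint_left]
    intro v hv hvB
    rw [hT, Finset.mem_union, Finset.mem_image] at hv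
    rcases hv with hv | ⟨P, hP, rfl⟩
    · exact (Finset.disjoint_left.mp hTF1) hv hvB
    · refine (Finset.disjoint_left.mp hTL1) hP ?_
      rw [Set.Finite.mem_toFinset]
      exact ⟨un P, hvB, hun P⟩
  · intro P
    rw [Set.Finite.mem_toFinset]
    rfl
  · exact ClGen.mono Finset.subset_union_left hTF2
  · refine ClGen.mono ?_ hTL2
    intro P hP
    rw [Set.Finite.mem_toFinset]
    exact ⟨un P, Finset.mem_union_right _ (Finset.mem_image_of_mem _ hP), hun P⟩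

end Pool.Agent.Helper84.REC
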