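import Pool.Agent.Helper85.REC.Stmts11
import Pool.Agent.Helper85.REC.Gl2
import Pool.Agent.Helper78.REC.INV3
import Pool.Agent.Helper78.REC.SYM
import Pool.Agent.Helper51.REC.Dict
import Pool.Agent.Helper61.REC.DATa

/-!
# REC.ST_SC3: scalar restrictions in rank three   [helper84]
-/

set_option autoImplicit false

open scoped Classical
open NumberField Polynomial

namespace Pool.Agent.Helper84.REC.SC3

open _root_.REC hiding X
open MU
open Pool.Agent.Helper78.REC.INV3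

/-! ### Lines -/

section line

variable {G K : Type} [Group G] [Field K]

theorem line (hCL3 : ST_CL3) (h2 : (2 : K) ≠ 0) (r : G →* Matrix (Fin 3) (Fin 3) K)
    (ψ : Matrix (Fin 3) (Fin 3) K) (ν : G → K) (hψ : IsForm r ψ ν) (hirr : IsIrr r)
    (H : Subgroup G) (hH : H.Normal) (hnot : ¬ IsIrr (r.comp H.subtype)) :
    ∀ g ∈ H, r g * r g = ν g • (1 : Matrix (Fin 3) (Fin 3) K) := by
  unfold IsIrr at hnot
  push Not at hnot
  obtain ⟨m, B, A, hsub, hm0, hm3⟩ := hnot
  have hmle : m ≤ 3 := by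
    obtain ⟨⟨C, hC⟩, -⟩ := hsub
    have hinj : Function.Injective B.mulVecLin := by
      intro x y hxy
      have h1 : B.mulVec x = B.mulVec y := hxy
      have h3 := congrArg (fun v => C.mulVec v) h1
      simpa only [Matrix.mulVec_mulVec, hC, Matrix.one_mulVec] using h3
    have h4 := LinearMap.finrank_le_finrank_of_injective hinj
    simpa using h4
  have hm : m = 1 ∨ m = 2 := by omega
  rcases hm with rfl | rfl
  · exact hCL3 G K h2 r ψ ν hψ hirr H hH B A hsub
  · obtain ⟨⟨C, hC⟩, hA⟩ := hsub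
    set T : Matrix (Fin 2) (Fin 3) K := B.transpose * ψ with hT
    have hst : ∀ g : H, ∀ v ∈ LinearMap.ker T.mulVecLin,
        ((r.comp H.subtype) g).mulVec v ∈ LinearMap.ker T.mulVecLin := by
      intro g v hv
      rw [LinearMap.mem_ker, Matrix.mulVecLin_apply] at hv ⊢
      have e1 : ψ * r g = ν g • ((r (g : G)⁻¹).transpose * ψ) := by
        have e2 : (r (g : G)⁻¹).transpose * (r g).transpose = 1 := by
          rw [← Matrix.transpose_mul, rinv, Matrix.transpose_one]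
        calc ψ * r g = (r (g : G)⁻¹).transpose * (r g).transpose * (ψ * r g) := by
              rw [e2, Matrix.one_mul]
          _ = (r (g : G)⁻¹).transpose * ((r g).transpose * ψ * r g) := by
              simp only [Matrix.mul_assoc]
          _ = _ := by rw [hψ.2.2, Matrix.mul_smul]
      have e3 : B.transpose * (r (g : G)⁻¹).transpose = (A g⁻¹).transpose * B.transpose := by
        have e4 : r (g : G)⁻¹ * B = B * A g⁻¹ := hA g⁻¹
        rw [← Matrix.transpose_mul, e4, Matrix.transpose_mul]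
      show T.mulVec ((r (g : G)).mulVec v) = 0
      rw [Matrix.mulVec_mulVec, hT, Matrix.mul_assoc, e1, Matrix.mul_smul, ← Matrix.mul_assoc, e3,
        Matrix.mul_assoc, ← hT, Matrix.smul_mulVec, ← Matrix.mulVec_mulVec, hv,
        Matrix.mulVec_zero, smul_zero]
    have hfr : Module.finrank K (LinearMap.ker T.mulVecLin) = 1 := by
      have h3 := T.mulVecLin.finrank_range_add_finrank_ker
      have h4 : LinearMap.range T.mulVecLin = ⊤ := by
        rw [LinearMap.range_eq_top]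
        intro y
        refine ⟨(ψ⁻¹ * C.transpose).mulVec y, ?_⟩
        rw [Matrix.mulVecLin_apply, Matrix.mulVec_mulVec, hT, Matrix.mul_assoc,
          ← Matrix.mul_assoc ψ, Matrix.mul_nonsing_inv ψ (isUnit_iff_ne_zero.mpr hψ.1),
          Matrix.one_mul, ← Matrix.transpose_mul, hC, Matrix.transpose_one, Matrix.one_mulVec]
      rw [h4, finrank_top, Module.finrank_fin_fun, Module.finrank_fin_fun] at h3
      omega
    obtain ⟨B', A', hBA', -⟩ := isSub_of_stable (r.comp H.subtype) _ hst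
    revert B' A'
    rw [hfr]
    intro B' A' hBA'
    exact hCL3 G K h2 r ψ ν hψ hirr H hH B' A' hBA'

end line

/-! ### Scalar matrices -/

theorem four_dvd (l : ℕ) [Fact l.Prime] : (4 : ℤ_[l]) ∣ (l : ℤ_[l]) ^ 2 := by
  by_cases h : l = 2
  · subst h
    norm_num
  · have h1 : IsUnit (4 : ℤ_[l]) := by
      rw [PadicInt.isUnit_iff]
      have h2 : ‖((4 : ℕ) : ℤ_[l])‖ = 1 := by
        rw [PadicInt.norm_natCast_eq_one_iff]
        have hp : l.Prime := Fact.out
        rw [show (4 : ℕ) = 2 ^ 2 by norm_num]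
        exact Nat.Coprime.pow_right 2 ((Nat.coprime_primes hp Nat.prime_two).mpr h)
      exact_mod_cast h2
    exact h1.dvd

theorem charpoly_scalar {R : Type} [CommRing R] (a : R) :
    (a • (1 : Matrix (Fin 3) (Fin 3) R)).charpoly = (X - C a) ^ 3 := by
  rw [Matrix.smul_one_eq_diagonal, Matrix.charpoly_diagonal]
  simp

theorem coeff_cube {R : Type} [CommRing R] (a : R) :
    ((X - C a) ^ 3 : R[X]).coeff 2 = -(3 * a) ∧ ((X - C a) ^ 3 : R[X]).coeff 1 = 3 * a ^ 2 ∧
      ((X - C a) ^ 3 : R[X]).coeff 0 = -a ^ 3 := by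
  have h1 : ((X - C a) ^ 3 : R[X]) = X ^ 3 - C (3 * a) * X ^ 2 + C (3 * a ^ 2) * X - C (a ^ 3) := by
    simp only [map_mul, map_pow, map_ofNat]
    ring
  rw [h1]
  refine ⟨?_, ?_, ?_⟩ <;>
  simp only [coeff_sub, coeff_add, coeff_C_mul, coeff_X_pow, coeff_X, coeff_C] <;> norm_num

theorem scalar_of (l : ℕ) [Fact l.Prime] (A : Matrix (Fin 3) (Fin 3) ℤ_[l])
    (hA : ∀ i j, (l : ℤ_[l]) ^ 3 ∣ (A - 1) i j) (ν : ℤ_[l])
    (hA2 : A * A = ν • (1 : Matrix (Fin 3) (Fin 3) ℤ_[l])) (hd : A.det ^ 2 = ν ^ 3) (hν : ν ≠ 0) :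
    ∃ a : ℤ_[l], A = a • (1 : Matrix (Fin 3) (Fin 3) ℤ_[l]) := by
  obtain ⟨q, hq⟩ := four_dvd l
  choose D hD using hA
  set C : Matrix (Fin 3) (Fin 3) ℤ_[l] := Matrix.of fun i j => q * D i j with hC
  have hAC : A = 1 + (4 * (l : ℤ_[l])) • C := by
    ext i j
    have h1 := hD i j
    rw [Matrix.sub_apply, pow_succ, hq] at h1
    rw [Matrix.add_apply, Matrix.smul_apply, hC, Matrix.of_apply, smul_eq_mul]
    linear_combination h1
  obtain ⟨x, hx⟩ : ∃ x, ν = 1 + 4 * (l : ℤ_[l]) * x := by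
    have h1 : A * A = 1 + (4 * (l : ℤ_[l])) • ((2 : ℤ_[l]) • C + (4 * (l : ℤ_[l])) • (C * C)) := by
      rw [hAC, Matrix.add_mul, Matrix.mul_add, Matrix.one_mul, Matrix.one_mul, Matrix.mul_add,
        Matrix.mul_one, Matrix.smul_mul, Matrix.mul_smul]
      module
    rw [hA2] at h1
    have h2 := congrFun (congrFun h1 0) 0
    rw [Matrix.smul_apply, Matrix.one_apply_eq, smul_eq_mul, mul_one, Matrix.add_apply,
      Matrix.one_apply_eq, Matrix.smul_apply, smul_eq_mul] at h2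
    exact ⟨_, h2⟩
  obtain ⟨y, hy⟩ : ∃ y, A.det = 1 + 4 * (l : ℤ_[l]) * y := by
    rw [hAC, Matrix.det_one_add_smul]
    refine ⟨C.trace + (1 + (X : ℤ_[l][X]) • C.map Polynomial.C).det.divX.divX.eval
      (4 * (l : ℤ_[l])) * (4 * (l : ℤ_[l])), ?_⟩
    ring
  set P : Matrix (Fin 3) (Fin 3) ℤ_[l] := ν • A + A.det • (1 : Matrix (Fin 3) (Fin 3) ℤ_[l]) with hP
  set E : Matrix (Fin 3) (Fin 3) ℤ_[l] := C + x • (1 : Matrix (Fin 3) (Fin 3) ℤ_[l]) +
    (4 * (l : ℤ_[l]) * x) • C + y • (1 : Matrix (Fin 3) (Fin 3) ℤ_[l]) with hE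
  have hPE : P = (2 : ℤ_[l]) • (1 + (2 * (l : ℤ_[l])) • E) := by
    rw [hP, hy, hx, hE]
    nth_rewrite 1 [hAC]
    module
  have hPdet : P.det ≠ 0 := by
    rw [hPE, Matrix.det_smul, Matrix.det_one_add_smul]
    refine mul_ne_zero (pow_ne_zero _ two_ne_zero) ?_
    intro h0
    have h1 : (l : ℤ_[l]) ∣ 1 := by
      refine ⟨-(2 * (E.trace + (1 + (X : ℤ_[l][X]) • E.map Polynomial.C).det.divX.divX.eval
        (2 * (l : ℤ_[l])) * (2 * (l : ℤ_[l])))), ?_⟩
      linear_combination h0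
    exact PadicInt.prime_p.not_isUnit (isUnit_of_dvd_one h1)
  have hZ : (ν • A - A.det • (1 : Matrix (Fin 3) (Fin 3) ℤ_[l])) * P = 0 := by
    have h1 : (ν • A - A.det • (1 : Matrix (Fin 3) (Fin 3) ℤ_[l])) * P =
        (ν * ν) • (A * A) - (A.det * A.det) • (1 : Matrix (Fin 3) (Fin 3) ℤ_[l]) := by
      rw [hP]
      simp only [Matrix.sub_mul, Matrix.mul_add, Matrix.smul_mul, Matrix.mul_smul, Matrix.mul_one,
        Matrix.one_mul]
      module
    have h3 : ν * ν * ν - A.det * A.det = 0 := by linear_combination -hd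
    rw [h1, hA2, smul_smul, ← sub_smul, h3, zero_smul]
  have hz : ν • A - A.det • (1 : Matrix (Fin 3) (Fin 3) ℤ_[l]) = 0 := by
    have h1 := congrArg (fun Z => Z * P.adjugate) hZ
    simp only [Matrix.mul_assoc, Matrix.mul_adjugate, Matrix.zero_mul, Matrix.mul_smul,
      Matrix.mul_one] at h1
    exact (smul_eq_zero.mp h1).resolve_left hPdet
  have hz' : ∀ i j, ν * A i j = A.det * (1 : Matrix (Fin 3) (Fin 3) ℤ_[l]) i j := by
    intro i j
    have h1 := congrFun (congrFun hz i) j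
    rw [Matrix.sub_apply, Matrix.smul_apply, Matrix.smul_apply, smul_eq_mul, smul_eq_mul,
      Matrix.zero_apply, sub_eq_zero] at h1
    exact h1
  refine ⟨A 0 0, ?_⟩
  ext i j
  apply mul_left_cancel₀ hν
  have h0 := hz' 0 0
  rw [Matrix.one_apply_eq, mul_one] at h0
  rw [hz' i j, Matrix.smul_apply, smul_eq_mul, ← mul_assoc, h0]

/-! ### Characteristic polynomials with one root -/

theorem cube {K : Type} [Field K] (h3 : (3 : K) ≠ 0) (A : Matrix (Fin 3) (Fin 3) K)
    (h1 : A.charpoly.coeff 2 ^ 2 = 3 * A.charpoly.coeff 1)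
    (h0 : A.charpoly.coeff 2 ^ 3 = 27 * A.charpoly.coeff 0) :
    A.charpoly = (X - C (A.trace / 3)) ^ 3 := by
  have ht : A.charpoly.coeff 2 = -A.trace := by
    have := Matrix.trace_eq_neg_charpoly_coeff A
    rw [this, Fintype.card_fin, neg_neg]
  have e1 : A.charpoly.coeff 1 = 3 * (A.trace / 3) ^ 2 := by
    rw [ht] at h1
    field_simp
    linear_combination -h1
  have e0 : A.charpoly.coeff 0 = -(A.trace / 3) ^ 3 := by
    rw [ht] at h0
    have h27 : (27 : K) ≠ 0 := by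
      have : (27 : K) = 3 ^ 3 := by norm_num
      rw [this]
      exact pow_ne_zero _ h3
    apply mul_left_cancel₀ h27
    rw [← h0]
    field_simp
    ring
  have e2 : A.charpoly.coeff 2 = -(3 * (A.trace / 3)) := by
    rw [ht]
    field_simp
  rw [cp A, e2, e1, e0]
  simp only [map_neg, map_mul, map_pow, map_ofNat]
  ring

/-! ### Unipotent groups modulo `l` -/

theorem scal (l : ℕ) [Fact l.Prime] (hl : 3 ≤ l) (G : Type) [Group G]
    (r : G →* Matrix (Fin 3) (Fin 3) (ZMod l)) (hirr : IsIrr r) (H : Subgroup G) (hH : H.Normal)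
    (a : G → ZMod l) (hconj : ∀ x g, a (x⁻¹ * g * x) = a g) (hne : ∀ g ∈ H, a g ≠ 0)
    (hmul : ∀ g ∈ H, ∀ g' ∈ H, a (g * g') = a g * a g')
    (hnil : ∀ g ∈ H, (r g - a g • (1 : Matrix (Fin 3) (Fin 3) (ZMod l))) ^ 3 = 0) :
    ∀ g ∈ H, r g = a g • (1 : Matrix (Fin 3) (Fin 3) (ZMod l)) := by
  have ha1 : a 1 = 1 := by
    have h1 := hmul 1 H.one_mem 1 H.one_mem
    rw [mul_one] at h1
    have h2 := hne 1 H.one_mem
    have h3 : a 1 * (a 1 - 1) = 0 := by linear_combination -h1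
    exact sub_eq_zero.mp ((mul_eq_zero.mp h3).resolve_left h2)
  let u : H →* Matrix (Fin 3) (Fin 3) (ZMod l) :=
    { toFun := fun g => (a g)⁻¹ • r g
      map_one' := by
        rw [Subgroup.coe_one, ha1, map_one, inv_one, one_smul]
      map_mul' := by
        intro g g'
        rw [Subgroup.coe_mul, hmul _ g.2 _ g'.2, map_mul, Matrix.smul_mul, Matrix.mul_smul,
          smul_smul, mul_inv] }
  have hu : ∀ g : H, u g = (a g)⁻¹ • r g := fun g => rfl
  have hul : ∀ g : H, u g ^ l = 1 := by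
    intro g
    have h1 : u g - 1 = (a g)⁻¹ • (r g - a g • (1 : Matrix (Fin 3) (Fin 3) (ZMod l))) := by
      rw [hu, smul_sub, smul_smul, inv_mul_cancel₀ (hne _ g.2), one_smul]
    have h2 : (u g - 1) ^ l = 0 := by
      rw [h1, _root_.smul_pow]
      have h3 : (r g - a g • (1 : Matrix (Fin 3) (Fin 3) (ZMod l))) ^ l = 0 := by
        obtain ⟨k, rfl⟩ := Nat.exists_eq_add_of_le hl
        rw [pow_add, hnil _ g.2, zero_mul]
      rw [h3, smul_zero]
    have h4 := sub_pow_char_of_commute (p := l) (h := Commute.one_right (u g))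
    rw [h2, one_pow] at h4
    exact (sub_eq_zero.mp h4.symm)
  let U : H →* (Module.End (ZMod l) (Fin 3 → ZMod l))ˣ := (rp u).toHomUnits
  have hUv : ∀ (g : H) (v : Fin 3 → ZMod l), U g • v = (u g).mulVec v := fun g v => rfl
  have hP : IsPGroup l U.range := by
    rintro ⟨_, g, rfl⟩
    refine ⟨1, ?_⟩
    apply Subtype.ext
    rw [pow_one]
    show (U g) ^ l = 1
    rw [← map_pow]
    apply Units.ext
    apply LinearMap.ext
    intro v
    show (u (g ^ l)).mulVec v = v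
    rw [map_pow, hul, Matrix.one_mulVec]
  have hcard : l ∣ Nat.card (Fin 3 → ZMod l) := by
    rw [Nat.card_eq_fintype_card, Fintype.card_pi_const, ZMod.card]
    exact dvd_pow_self _ (by norm_num)
  have hfin : Finite (Fin 3 → ZMod l) := inferInstance
  obtain ⟨v, hv, hv0⟩ := hP.exists_fixed_point_of_prime_dvd_card_of_fixed_point
    (Fin 3 → ZMod l) hcard (a := 0) (by
      intro g
      exact smul_zero _)
  let W : Submodule (ZMod l) (Fin 3 → ZMod l) :=
    { carrier := {v | ∀ g ∈ H, (r g).mulVec v = a g • v}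
      add_mem' := by
        intro x y hx hy g hg
        rw [Matrix.mulVec_add, hx g hg, hy g hg, smul_add]
      zero_mem' := by
        intro g hg
        rw [Matrix.mulVec_zero, smul_zero]
      smul_mem' := by
        intro c x hx g hg
        rw [Matrix.mulVec_smul, hx g hg, smul_comm] }
  have hW : ∀ v, v ∈ W ↔ ∀ g ∈ H, (r g).mulVec v = a g • v := fun v => Iff.rfl
  have hvW : v ∈ W := by
    intro g hg
    have h1 := hv ⟨U ⟨g, hg⟩, ⟨g, hg⟩, rfl⟩
    have h2 : (u ⟨g, hg⟩).mulVec v = v := h1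
    rw [hu, Matrix.smul_mulVec] at h2
    have h3 := congrArg (fun z => a g • z) h2
    simp only [smul_smul] at h3
    rw [mul_inv_cancel₀ (hne g hg), one_smul] at h3
    exact h3
  have hst : ∀ x, ∀ v ∈ W, (r x).mulVec v ∈ W := by
    intro x v hv g hg
    have h1 : x⁻¹ * g * x ∈ H := by
      have := hH.conj_mem g hg x⁻¹
      rwa [inv_inv] at this
    have h2 : g * x = x * (x⁻¹ * g * x) := by group
    rw [Matrix.mulVec_mulVec, ← map_mul, h2, map_mul, ← Matrix.mulVec_mulVec, hv _ h1, hconj,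
      Matrix.mulVec_smul]
  rcases irr_stable hirr W hst with h1 | h1
  · rw [h1, Submodule.mem_bot] at hvW
    exact absurd hvW.symm hv0
  · intro g hg
    refine Matrix.ext_of_mulVec_single fun i => ?_
    have h2 : (Pi.single i 1 : Fin 3 → ZMod l) ∈ W := by
      rw [h1]; exact Submodule.mem_top
    rw [h2 g hg, Matrix.smul_mulVec, Matrix.one_mulVec]

/-! ### The trace is multiplicative -/

theorem tr_mul {G K : Type} [Group G] [Field K] (h2 : (2 : K) ≠ 0) (h3 : (3 : K) ≠ 0)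
    {r : G →* Matrix (Fin 3) (Fin 3) K} {ψ : Matrix (Fin 3) (Fin 3) K} {ν : G → K}
    (hψ : IsForm r ψ ν) (H : Subgroup G)
    (hH : ∀ g ∈ H, (r g).charpoly.coeff 2 ^ 2 = 3 * (r g).charpoly.coeff 1 ∧
      (r g).charpoly.coeff 2 ^ 3 = 27 * (r g).charpoly.coeff 0) :
    ∀ g ∈ H, ∀ g' ∈ H, 3 * (r (g * g')).trace = (r g).trace * (r g').trace := by
  have key : ∀ g ∈ H, (r g).trace = 3 * dlt r ν g := by
    intro g hg
    have e1 : (r g).charpoly.eval (dlt r ν g) = 0 := by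
      rw [Matrix.eval_charpoly]
      have e2 : Matrix.scalar (Fin 3) (dlt r ν g) - r g =
          -(r g - dlt r ν g • (1 : Matrix (Fin 3) (Fin 3) K)) := by
        rw [neg_sub, Matrix.smul_one_eq_diagonal]
        rfl
      rw [e2, Matrix.det_neg, dlt_eig h2 hψ g, mul_zero]
    rw [cube h3 (r g) (hH g hg).1 (hH g hg).2, eval_pow, eval_sub, eval_X, eval_C] at e1
    have e3 := sub_eq_zero.mp (pow_eq_zero_iff (by norm_num) |>.mp e1)
    rw [e3]
    field_simp
  intro g hg g' hg'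
  rw [key _ (H.mul_mem hg hg'), key g hg, key g' hg']
  have e4 : dlt r ν (g * g') = dlt r ν g * dlt r ν g' := by
    unfold dlt
    rw [map_mul, Matrix.det_mul, nu_mul hψ, mul_div_mul_comm]
  rw [e4]
  ring

end Pool.Agent.Helper84.REC.SC3

namespace REC

open MU
open Pool.Agent.Helper84.REC.SC3
open Pool.Agent.Helper61.REC (rat_coe res_coe charpoly_coeff_zero)

theorem st_SC3 (hCL3 : ST_CL3) (hSYM : ST_SYM) (hTRP : ST_TRP) : ST_SC3 := by
  intro F _ _ S hS w h M hM l₀ _ H hH hHo hnot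
  obtain ⟨hirr, c, hc⟩ := hM
  obtain ⟨ψ, hψ⟩ := hSYM F S hS 3 w h M (by decide) l₀ (hirr l₀)
  have hline := line hCL3 two_ne_zero (rat (M.ρ l₀)) ψ _ hψ (hirr l₀) H hH hnot
  obtain ⟨H₀, hH₀o, hH₀⟩ := gl_open (M.ρ l₀) (M.continuous l₀) 3
  obtain ⟨Y, hYn, hYo, hYH⟩ := Pool.Agent.Helper78.REC.SYM.exists_openNormal F
    (H₀ : Set (Gal F)) hH₀o H₀.one_mem
  set H' := H ⊓ Y with hH'
  have hH'n : H'.Normal := inferInstance
  have hH'o : IsOpen (H' : Set (Gal F)) := hHo.inter hYo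
  have hinj : ∀ (l : ℕ) [Fact l.Prime], Function.Injective (algebraMap ℤ_[l] ℚ_[l]) :=
    fun l _ => IsFractionRing.injective ℤ_[l] ℚ_[l]
  -- scalar at `l₀`
  have hsc : ∀ g ∈ H', ∃ a : ℤ_[l₀], (M.ρ l₀ g : Matrix (Fin 3) (Fin 3) ℤ_[l₀]) =
      a • (1 : Matrix (Fin 3) (Fin 3) ℤ_[l₀]) := by
    intro g hg
    have hcg := (hH₀ g).1 (hYH hg.2)
    have hg2 := hline g hg.1
    have hdet := Pool.Agent.Helper78.REC.INV3.det_sq hψ g
    set A := (M.ρ l₀ g : Matrix (Fin 3) (Fin 3) ℤ_[l₀]) with hA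
    set ν : ℤ_[l₀] := (((cyc l₀ F g)⁻¹ : ℤ_[l₀]ˣ) : ℤ_[l₀]) ^ w with hν
    have hνQ : (((((cyc l₀ F g)⁻¹ : ℤ_[l₀]ˣ) : ℤ_[l₀]) : ℚ_[l₀]) ^ w) =
        algebraMap ℤ_[l₀] ℚ_[l₀] ν := by
      rw [hν, map_pow]
      rfl
    rw [rat_coe, hνQ] at hg2 hdet
    refine scalar_of l₀ A hcg ν ?_ ?_ ?_
    · apply Matrix.map_injective (hinj l₀)
      show (A * A).map (algebraMap ℤ_[l₀] ℚ_[l₀]) =
        (ν • (1 : Matrix (Fin 3) (Fin 3) ℤ_[l₀])).map (algebraMap ℤ_[l₀] ℚ_[l₀])
      rw [Matrix.map_mul, hg2]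
      refine Matrix.ext fun i j => ?_
      rw [Matrix.map_apply, Matrix.smul_apply, Matrix.smul_apply, smul_eq_mul, smul_eq_mul,
        RingHom.map_mul, Matrix.one_apply, Matrix.one_apply]
      split_ifs <;> simp
    · apply hinj l₀
      rw [map_pow, map_pow, RingHom.map_det]
      exact hdet
    · rw [hν]
      exact pow_ne_zero _ (Units.ne_zero _)
  have hQ1 : ∀ (l : ℕ) [Fact l.Prime], ∀ g ∈ H',
      ((M.ρ l g : Matrix (Fin 3) (Fin 3) ℤ_[l]).charpoly.coeff 2) ^ 2 =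
        3 * (M.ρ l g : Matrix (Fin 3) (Fin 3) ℤ_[l]).charpoly.coeff 1 := by
    intro l _ g hg
    have h1 := hTRP F S hS 3 w h M (H' : Set (Gal F)) hH'o
      (MvPolynomial.X 2 ^ 2 - 3 * MvPolynomial.X 1) l₀ l (by
        intro σ hσ
        obtain ⟨a, ha⟩ := hsc σ hσ
        obtain ⟨c2, c1, c0⟩ := coeff_cube a
        simp only [map_sub, map_pow, map_mul, MvPolynomial.aeval_X, map_ofNat]
        rw [ha, charpoly_scalar, c2, c1]
        ring) g hg
    simp only [map_sub, map_pow, map_mul, MvPolynomial.aeval_X, map_ofNat] at h1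
    exact sub_eq_zero.mp h1
  have hQ0 : ∀ (l : ℕ) [Fact l.Prime], ∀ g ∈ H',
      ((M.ρ l g : Matrix (Fin 3) (Fin 3) ℤ_[l]).charpoly.coeff 2) ^ 3 =
        27 * (M.ρ l g : Matrix (Fin 3) (Fin 3) ℤ_[l]).charpoly.coeff 0 := by
    intro l _ g hg
    have h1 := hTRP F S hS 3 w h M (H' : Set (Gal F)) hH'o
      (MvPolynomial.X 2 ^ 3 - 27 * MvPolynomial.X 0) l₀ l (by
        intro σ hσ
        obtain ⟨a, ha⟩ := hsc σ hσ
        obtain ⟨c2, c1, c0⟩ := coeff_cube a
        simp only [map_sub, map_pow, map_mul, MvPolynomial.aeval_X, map_ofNat]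
        rw [ha, charpoly_scalar, c2, c0]
        ring) g hg
    simp only [map_sub, map_pow, map_mul, MvPolynomial.aeval_X, map_ofNat] at h1
    exact sub_eq_zero.mp h1
  refine ⟨H', max c 3, hH'n, hH'o, fun l _ hl g hg => ?_⟩
  have hcl : c < l := lt_of_le_of_lt (le_max_left _ _) hl
  have h3l : 3 < l := lt_of_le_of_lt (le_max_right _ _) hl
  have h3 : (3 : ZMod l) ≠ 0 := by
    intro h0
    have h1 : ((3 : ℕ) : ZMod l) = 0 := by exact_mod_cast h0
    rw [ZMod.natCast_eq_zero_iff] at h1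
    exact absurd (Nat.le_of_dvd (by norm_num) h1) (by omega)
  -- the residual representation
  have hcf : ∀ (g : Gal F) (i : ℕ), (res (M.ρ l) g).charpoly.coeff i =
      PadicInt.toZMod ((M.ρ l g : Matrix (Fin 3) (Fin 3) ℤ_[l]).charpoly.coeff i) := by
    intro g i
    rw [res_coe, Matrix.charpoly_map, coeff_map]
  have hcube : ∀ g ∈ H', (res (M.ρ l) g).charpoly =
      (Polynomial.X - C ((res (M.ρ l) g).trace / 3)) ^ 3 := by
    intro g hg
    refine cube h3 _ ?_ ?_
    · rw [hcf, hcf, ← map_pow, hQ1 l g hg, map_mul, map_ofNat]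
    · rw [hcf, hcf, ← map_pow, hQ0 l g hg, map_mul, map_ofNat]
  obtain ⟨ψ', hψ'⟩ := hSYM F S hS 3 w h M (by decide) l (hirr l)
  have hcfQ : ∀ (g : Gal F) (i : ℕ), (rat (M.ρ l) g).charpoly.coeff i =
      algebraMap ℤ_[l] ℚ_[l] ((M.ρ l g : Matrix (Fin 3) (Fin 3) ℤ_[l]).charpoly.coeff i) := by
    intro g i
    rw [rat_coe, Matrix.charpoly_map, coeff_map]
  have htrQ := tr_mul two_ne_zero three_ne_zero hψ' H' (by
    intro g hg
    constructor
    · rw [hcfQ, hcfQ, ← map_pow, hQ1 l g hg, map_mul, map_ofNat]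
    · rw [hcfQ, hcfQ, ← map_pow, hQ0 l g hg, map_mul, map_ofNat])
  have htr : ∀ g ∈ H', ∀ g' ∈ H', 3 * (res (M.ρ l) (g * g')).trace =
      (res (M.ρ l) g).trace * (res (M.ρ l) g').trace := by
    intro g hg g' hg'
    have h1 := htrQ g hg g' hg'
    have h4 : ∀ g, (rat (M.ρ l) g).trace =
        algebraMap ℤ_[l] ℚ_[l] (M.ρ l g : Matrix (Fin 3) (Fin 3) ℤ_[l]).trace := by
      intro g
      rw [rat_coe, Matrix.trace, Matrix.trace, map_sum]
      rfl
    have h5 : ∀ g, (res (M.ρ l) g).trace =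
        PadicInt.toZMod (M.ρ l g : Matrix (Fin 3) (Fin 3) ℤ_[l]).trace := by
      intro g
      rw [res_coe, Matrix.trace, Matrix.trace, map_sum]
      rfl
    have h6 : (3 : ℤ_[l]) * (M.ρ l (g * g') : Matrix (Fin 3) (Fin 3) ℤ_[l]).trace =
        (M.ρ l g : Matrix (Fin 3) (Fin 3) ℤ_[l]).trace *
          (M.ρ l g' : Matrix (Fin 3) (Fin 3) ℤ_[l]).trace := by
      apply hinj l
      rw [RingHom.map_mul, RingHom.map_mul, map_ofNat, ← h4, ← h4, ← h4]
      exact h1
    have h7 := congrArg (PadicInt.toZMod (p := l)) h6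
    rw [RingHom.map_mul, RingHom.map_mul, map_ofNat, ← h5, ← h5, ← h5] at h7
    exact h7
  refine ⟨_, scal l (by omega) (Gal F) (res (M.ρ l)) (hc l hcl).1 H' hH'n
    (fun g => (res (M.ρ l) g).trace / 3) ?_ ?_ ?_ ?_ g hg⟩
  · intro x g
    show (res (M.ρ l) (x⁻¹ * g * x)).trace / 3 = _
    rw [map_mul, Matrix.trace_mul_comm, ← map_mul, ← mul_assoc, mul_inv_cancel, one_mul]
  · intro g hg h0
    have h1 := congrArg (fun P : Polynomial (ZMod l) => P.coeff 0) (hcube g hg)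
    change (res (M.ρ l) g).trace / 3 = 0 at h0
    change (res (M.ρ l) g).charpoly.coeff 0 = _ at h1
    rw [charpoly_coeff_zero, h0, (coeff_cube _).2.2] at h1
    have h4 := Pool.Agent.Helper78.REC.INV3.det_ne (res (M.ρ l)) g
    apply h4
    linear_combination -h1
  · intro g hg g' hg'
    have h1 := htr g hg g' hg'
    show (res (M.ρ l) (g * g')).trace / 3 = (res (M.ρ l) g).trace / 3 * ((res (M.ρ l) g').trace / 3)
    field_simp
    linear_combination h1
  · intro g hg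
    have h1 := Matrix.aeval_self_charpoly (res (M.ρ l) g)
    rw [hcube g hg, map_pow, map_sub, aeval_X, aeval_C, Algebra.algebraMap_eq_smul_one] at h1
    exact h1

end REC
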